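import Mathlib
import Pool.Agent.Lib.MP_b91f88_ntD.Main

/-!
The lower bounds for the number of terms in sums of pairwise coprime squares are attained by a
positive proportion of every residue class modulo `24`.
-/

set_option autoImplicit false

namespace Pool.Agent.Results.MP_b91f88_nt.Attained

open CoprimeSquares

/-- There are `δ > 0` and `N₀` such that for all `N ≥ N₀` and all `c < 24` at least `δ N` of the
integers `n ≤ N` have `n ≡ c` modulo `24` and `g n = lb c`. -/
theorem result : ∃ δ : ℝ, 0 < δ ∧ ∃ N₀ : ℕ, ∀ N : ℕ, N₀ ≤ N → ∀ c < 24,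
    δ * N ≤ (((Finset.Icc 1 N).filter fun n => n % 24 = c ∧ g n = lb c).card : ℝ) :=
  attained

end Pool.Agent.Results.MP_b91f88_nt.Attained
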