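import Mathlib
import Pool.Agent.Lib.MP_b91f88_nt.Main

/-!
The number of terms in sums of pairwise coprime squares: congruences modulo `24` and a lower bound
for almost all integers.
-/

set_option autoImplicit false

namespace Pool.Agent.Results.MP_b91f88_nt.CongruenceBounds

open CoprimeSquares

theorem result :
    (∀ n m : ℕ, IsSum n m →
      ∃ s ∈ ({0, 3, 8, 11, 15, 23} : Finset ℕ), n % 24 = (m + s) % 24) ∧
    (∀ n : ℕ, 0 < n → ¬ IsSum n 1 → ¬ IsSum n 2 → lb (n % 24) ≤ g n) ∧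
    (∀ n : ℕ, n % 24 = 2 → g n ≤ 3 ∨ 11 ≤ g n) ∧
    (∀ n : ℕ, n % 24 = 3 → g n ≤ 4 ∨ 12 ≤ g n) ∧
    (∀ ε : ℝ, 0 < ε → ∃ N₀ : ℕ, ∀ N : ℕ, N₀ ≤ N →
      (((Finset.Icc 1 N).filter fun n => g n < lb (n % 24)).card : ℝ) ≤ ε * N) ∧
    (∀ ε : ℝ, 0 < ε → ∃ N₀ : ℕ, ∀ N : ℕ, N₀ ≤ N →
      (1 / 24 - ε) * N ≤ (((Finset.Icc 1 N).filter fun n => 10 ≤ g n).card : ℝ)) ∧
    (∀ k : ℕ, g (33 + (420 * k + 52) ^ 2) = 10) :=
  ⟨fun _ _ h => cong h, fun _ hn h1 h2 => lb_le hn h1 h2, fun _ h => two h, fun _ h => three h,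
    fun _ h => few h, fun _ h => ten h, family⟩

end Pool.Agent.Results.MP_b91f88_nt.CongruenceBounds
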